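import Pool.Agent.X321.GR.Num
set_option autoImplicit false

/-!
The two lower bounds.
-/

namespace Pool.Agent.X321.GR

variable {g : ℕ}

theorem lower_six (hg : 6 ≤ g) {b : Fin (g + 1) → ℤ} (hb : Function.Injective b)
    {I : Fin (g + 1) → Fin (g + 1) → ℝ} {κ : ℝ} (hκ : 0 ≤ κ) (hrow : ∀ i, ∑ j, I i j = κ)
    (hoff : ∀ i j, i ≠ j → I i j < -(2 * Real.pi * Real.log (|(b i : ℝ) - b j| - 1 / 8))) :
    (κ + (g - 3)) ^ g ≤ |(Matrix.of fun j k : Fin g => I k.succ j.succ - I 0 j.succ).det| := by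
  have hg6 : (6 : ℝ) ≤ g := by exact_mod_cast hg
  have hpi := Real.pi_gt_d2
  have hlog : (626 / 1000 : ℝ) ≤ Real.log (((1 : ℕ) : ℝ) + 7 / 8) := by
    have h1 : (((1 : ℕ) : ℝ) + 7 / 8) = 2 * (15 / 16) := by norm_num
    rw [h1, Real.log_mul (by norm_num) (by norm_num)]
    have h2 := Real.one_sub_inv_le_log_of_pos (show (0 : ℝ) < 15 / 16 by norm_num)
    have h3 := Real.log_two_gt_d9
    norm_num at h2 ⊢
    linarith
  refine det_lower hb hκ hrow hoff (T := 1) (t := 39 / 10) (a := (g : ℝ) - 3)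
    (a' := 39 / 10 * (g - 3) - 4) (by norm_num) (by nlinarith) (by linarith) (by linarith) ?_ ?_
  · push_cast
    linarith
  · nlinarith

theorem exists_lower {η : ℝ} (hη : 0 < η) (hη1 : η < 1) : ∃ g0 : ℕ, ∀ g ≥ g0,
    ∀ {b : Fin (g + 1) → ℤ} (_ : Function.Injective b)
    {I : Fin (g + 1) → Fin (g + 1) → ℝ} {κ : ℝ} (_ : 0 ≤ κ) (_ : ∀ i, ∑ j, I i j = κ)
    (_ : ∀ i j, i ≠ j → I i j < -(2 * Real.pi * Real.log (|(b i : ℝ) - b j| - 1 / 8))),
    (κ + (1 - η) * (2 * Real.pi * (g * Real.log g))) ^ g ≤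
      |(Matrix.of fun j k : Fin g => I k.succ j.succ - I 0 j.succ).det| := by
  set c : ℝ := Real.log (64 / η) with hc
  have h64 : 1 < 64 / η := by
    rw [lt_div_iff₀ hη]
    linarith
  have hc0 : 0 < c := Real.log_pos h64
  refine ⟨⌈Real.exp (1 + 8 / η * c)⌉₊ + ⌈16 / η⌉₊, fun g hg b hb I κ hκ hrow hoff => ?_⟩
  have hg1 : Real.exp (1 + 8 / η * c) ≤ g := by
    have h1 := Nat.le_ceil (Real.exp (1 + 8 / η * c))
    have h2 : ((⌈Real.exp (1 + 8 / η * c)⌉₊ : ℕ) : ℝ) ≤ g := by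
      exact_mod_cast (by omega : ⌈Real.exp (1 + 8 / η * c)⌉₊ ≤ g)
    linarith
  have hg2 : 16 / η ≤ g := by
    have h1 := Nat.le_ceil (16 / η)
    have h2 : ((⌈16 / η⌉₊ : ℕ) : ℝ) ≤ g := by
      exact_mod_cast (by omega : ⌈16 / η⌉₊ ≤ g)
    linarith
  have hg0 : (0 : ℝ) < g := (Real.exp_pos _).trans_le hg1
  set L : ℝ := Real.log g with hL
  have hL1 : 1 + 8 / η * c ≤ L := by
    have := Real.log_le_log (Real.exp_pos _) hg1
    rwa [Real.log_exp] at this
  have h8c : 0 < 8 / η * c := by positivity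
  have hLpos : 1 ≤ L := by linarith
  have hcL : c ≤ η / 8 * L := by
    have h1 : η / 8 * (8 / η * c) = c := by field_simp
    have h2 : η / 8 * (1 + 8 / η * c) ≤ η / 8 * L :=
      mul_le_mul_of_nonneg_left hL1 (by positivity)
    have h3 : 0 < η / 8 := by positivity
    nlinarith
  have hηg : 16 ≤ η * g := by
    rw [div_le_iff₀ hη] at hg2
    linarith
  have hpi := Real.pi_pos
  have hpi3 := Real.pi_gt_three
  set T : ℕ := ⌊η * g / 32⌋₊ with hT
  have hT1 : (T : ℝ) ≤ η * g / 32 := Nat.floor_le (by positivity)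
  have hT2 : η * g / 32 < T + 1 := Nat.lt_floor_add_one _
  set t : ℝ := 2 * Real.pi * ((1 - η / 8) * L) with ht
  have h1η : 0 < 1 - η / 8 := by linarith
  have ht0 : 0 < t := by positivity
  have htT : t ≤ 2 * Real.pi * Real.log (T + 7 / 8) := by
    rw [ht]
    refine mul_le_mul_of_nonneg_left ?_ (by positivity)
    have h1 : g * (64 / η)⁻¹ ≤ (T : ℝ) + 7 / 8 := by
      rw [inv_div]
      have : (g : ℝ) * (η / 64) = η * g / 64 := by ring
      rw [this]
      linarith
    have h2 := Real.log_le_log (by positivity) h1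
    rw [Real.log_mul hg0.ne' (by positivity), Real.log_inv] at h2
    linarith
  have hgL : 0 < g * L := by positivity
  refine det_lower hb hκ hrow hoff (T := T) (t := t)
    (a := (1 - η) * (2 * Real.pi * (g * L))) (a' := (1 - η / 2) * (2 * Real.pi * (g * L)))
    ht0 htT ?_ ?_ ?_ ?_
  · have : 0 < 1 - η := by linarith
    positivity
  · have : 0 < 2 * Real.pi * (g * L) := by positivity
    nlinarith
  · -- the margin
    have h1 : (g * (1 - η / 8)) * t ≤ (g + 1 - 4 * T) * t := by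
      refine mul_le_mul_of_nonneg_right ?_ ht0.le
      nlinarith
    have h2 : (g * (1 - η / 8)) * t = (2 * Real.pi * (g * L)) * (1 - η / 8) ^ 2 := by
      rw [ht]
      ring
    have h3 : 1 - η / 4 ≤ (1 - η / 8) ^ 2 := by nlinarith
    have h4 : (2 * Real.pi * (g * L)) * (1 - η / 4) ≤ (2 * Real.pi * (g * L)) * (1 - η / 8) ^ 2 :=
      mul_le_mul_of_nonneg_left h3 (by positivity)
    have h5 : 4 * (T : ℝ) ≤ (2 * Real.pi * (g * L)) * (η / 4) := by
      have h6 : g ≤ g * L := by nlinarith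
      have h7 : η * g ≤ η * (g * L) := mul_le_mul_of_nonneg_left h6 hη.le
      have h8 : (2 * Real.pi * (g * L)) * (η / 4) = Real.pi / 2 * (η * (g * L)) := by ring
      rw [h8]
      have h9 : 0 ≤ η * (g * L) := by positivity
      nlinarith
    linarith
  · -- Bernoulli
    have h1 : (g + 1) * t ≤ (g + 1) * (2 * Real.pi * L) := by
      refine mul_le_mul_of_nonneg_left ?_ (by positivity)
      rw [ht]
      have : (1 - η / 8) * L ≤ L := by nlinarith
      exact mul_le_mul_of_nonneg_left this (by positivity)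
    have h2 : 0 ≤ (1 - η / 2) * (2 * Real.pi * (g * L)) := by
      have : 0 < 1 - η / 2 := by linarith
      positivity
    have h3 : g * ((1 - η / 2) * (2 * Real.pi * (g * L)) - (1 - η) * (2 * Real.pi * (g * L))) =
        (η * g / 2 * g) * (2 * Real.pi * L) := by ring
    rw [h3]
    have h4 : (g : ℝ) + 1 ≤ η * g / 2 * g := by nlinarith
    have h5 : ((g : ℝ) + 1) * (2 * Real.pi * L) ≤ (η * g / 2 * g) * (2 * Real.pi * L) :=
      mul_le_mul_of_nonneg_right h4 (by positivity)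
    linarith

end Pool.Agent.X321.GR
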