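import Pool.Agent.TH690.UF.Final
set_option autoImplicit false

/-!
The loops of `Pool.Agent.TH690.UF.exists_loops_of` with their coordinates, and all consequences for the
regulator matrix of its row sums and its signs.
-/

namespace Pool.Agent.X321.GR

open Polynomial Metric

open Pool.Agent.TH826.MK (Torus symb circ norm_circ contDiff_circ circ_add_one KQ Unramified)

open Pool.Agent.TH826.HD

open Pool.Agent.TH826.UH hiding det_ne_zero exists_loops

variable {K : Type*} [Field K] {s : K →+* ℂ} {g : ℕ} {F : K[X]} {b : Fin (g + 1) → K}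
  {ρ η : ℝ}

theorem exists_loops_full (H : Sepd (F.map s) (fun j => s (b j)) ρ η)
    (Q : Matrix (Fin g) (Fin g) ℝ → Prop)
    (hdet : ∀ I : Fin (g + 1) → Fin (g + 1) → ℝ,
      (∀ i, ∑ j, I i j = 2 * Real.pi * Real.log ‖(F.map s).leadingCoeff‖) →
      (∀ i j, ∀ d : ℝ, 0 < d → ρ + d ≤ ‖s (b j) - s (b i)‖ →
        I i j < -(2 * Real.pi * Real.log d)) →
      Q (Matrix.of fun j k : Fin g => I k.succ j.succ - I 0 j.succ))
    (ht : ∀ m, ∃ ζ : ℂ, ‖ζ‖ = 1 ∧ s (F.eval (b m)) = ζ + ζ⁻¹) :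
    ∃ (R : ℝ) (Γ : Fin g → Torus (POpen F b) 1), 1 < R ∧
      (∀ l θ (y : K), (Γ l).e θ (pcst F b y) = s y) ∧
      (∀ l θ, (Γ l).e θ (uz F b : POpen F b) = circ R (θ 0)) ∧
      (∀ l θ, ‖(Γ l).e θ (ux F b l.succ : POpen F b)‖ < ρ) ∧
      Q (Matrix.of fun l k : Fin g => (Γ l).reg (symb (pent F b k.succ 0))) := by
  obtain ⟨x, han, hdisc, hprod, -⟩ := H.exists_branches
  obtain ⟨R, hR, hRη⟩ := exists_radius H.eta
  have hR0 : 0 < R := one_pos.trans hR
  have hz := nz_circ hR0
  set u : ℝ → ℂ := fun t => circ R t + (circ R t)⁻¹ with hu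
  have hucd : ContDiff ℝ 2 u := (contDiff_circ R).add ((contDiff_circ R).inv hz.ne_zero)
  have hub : ∀ t, u t ∈ ball (0 : ℂ) (2 + η) := by
    intro t
    rw [mem_ball_zero_iff]
    refine (norm_add_le _ _).trans_lt ?_
    rw [norm_inv, norm_circ hR0.le]
    exact hRη
  have hper : ∀ t, u (t + 1) = u t := fun t => by
    simp only [hu, circ_add_one]
  set Y : Fin (g + 1) → ℝ → ℂ := fun j t => x j (u t) with hY
  have hYcd : ∀ j, ContDiff ℝ 2 (Y j) := by
    intro j
    rw [contDiff_iff_contDiffAt]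
    intro t
    exact ((han j _ (hub t)).contDiffAt.restrict_scalars ℝ).comp t hucd.contDiffAt
  have hYper : ∀ j t, Y j (t + 1) = Y j t := fun j t => by
    simp only [hY, hper]
  have hval : ∀ j t, F.eval₂ s (Y j t) = u t := by
    intro j t
    have h1 := eval_map_sub (hprod _ (hub t)) (Y j t)
    rw [Finset.prod_eq_zero (Finset.mem_univ j) (by simp [hY]), mul_zero] at h1
    exact sub_eq_zero.1 h1
  have hsF : ∀ m, s (F.eval (b m)) = F.eval₂ s (s (b m)) := fun m => by
    rw [Polynomial.eval₂_hom]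
  have hne : ∀ j t m, Y j t ≠ s (b m) := by
    intro j t m h
    obtain ⟨ζ, hζ, hζ'⟩ := ht m
    have hζ0 : ζ ≠ 0 := fun h0 => by rw [h0, norm_zero] at hζ; exact zero_ne_one hζ
    have h1 := hval j t
    rw [h, ← hsF, hζ'] at h1
    have h2 := hz.ne_zero t
    have h3 : (circ R t - ζ) * (circ R t - ζ⁻¹) = 0 := by
      have h4 : u t = circ R t + (circ R t)⁻¹ := rfl
      rw [h4] at h1
      have h5 : circ R t * (circ R t)⁻¹ = 1 := mul_inv_cancel₀ h2
      have h6 : ζ * ζ⁻¹ = 1 := mul_inv_cancel₀ hζ0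
      linear_combination (-circ R t) * h1 - h5 + h6
    rcases mul_eq_zero.1 h3 with h4 | h4
    · have h5 := congrArg norm (sub_eq_zero.1 h4)
      rw [norm_circ hR0.le, hζ] at h5
      exact hR.ne' h5
    · have h5 := congrArg norm (sub_eq_zero.1 h4)
      rw [norm_circ hR0.le, norm_inv, hζ, inv_one] at h5
      exact hR.ne' h5
  have hP : ∀ j t, PtS s F b (Y j t) (circ R t) := by
    intro j t
    refine ⟨?_, hne j t⟩
    rw [hval j t]
    have h2 : circ R t * (circ R t)⁻¹ = 1 := mul_inv_cancel₀ (hz.ne_zero t)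
    have h4 : u t = circ R t + (circ R t)⁻¹ := rfl
    rw [h4]
    linear_combination -h2
  set I : Fin (g + 1) → Fin (g + 1) → ℝ := fun i j => pr (circ R) (fun t => Y j t - s (b i))
    with hI
  have nY : ∀ i j, NZ fun t => s (b i) - Y j t := fun i j =>
    ⟨contDiff_const.sub (hYcd j), fun t => sub_ne_zero.2 (hne j t i).symm⟩
  have hIneg : ∀ i j, I i j = pr (circ R) (fun t => s (b i) - Y j t) := by
    intro i j
    rw [hI]
    simp only
    rw [← pr_neg]
    congr 1
    funext t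
    ring
  set μ : ℂ := (F.map s).leadingCoeff with hμ
  have hμ0 : μ ≠ 0 := H.lead_ne_zero
  have hrow : ∀ i, ∑ j, I i j = 2 * Real.pi * Real.log ‖μ‖ := by
    intro i
    obtain ⟨ζ, hζ, hζ'⟩ := ht i
    simp only [hIneg]
    rw [← pr_prod Finset.univ hz (fun j => nY i j)]
    have hc : NZ fun _ : ℝ => μ := ⟨contDiff_const, fun _ => hμ0⟩
    have h1 := pr_mul hz hc (NZ.prod Finset.univ (fun j => nY i j))
    have h2 : pr (circ R) (fun t => μ * ∏ j, (s (b i) - Y j t)) = 0 := by
      rw [← pr_circ hR hζ, ← pr_neg]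
      congr 1
      funext t
      have h3 := eval_map_sub (hprod _ (hub t)) (s (b i))
      rw [← hsF, hζ'] at h3
      have h4 : u t = circ R t + (circ R t)⁻¹ := rfl
      rw [h4] at h3
      have h5 : ∏ j, (s (b i) - Y j t) = ∏ j, (s (b i) - x j (circ R t + (circ R t)⁻¹)) := rfl
      rw [h5, ← h3]
      ring
    rw [h2, pr_const hR0] at h1
    linarith
  have hlt : ∀ i j, ∀ d : ℝ, 0 < d → ρ + d ≤ ‖s (b j) - s (b i)‖ →
      I i j < -(2 * Real.pi * Real.log d) := by
    intro i j d hd h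
    rw [hI]
    exact pr_lt_of_disc hR (hYcd j) (hYper j) (c := s (b j)) hd (fun t => hdisc j _ (hub t)) h
  refine ⟨R, fun l => mkS (hYcd l.succ) hz.smooth (hYper l.succ) (circ_add_one R)
    (fun t => hP l.succ t), hR, fun l θ y => ?_, fun l θ => ?_, fun l θ => ?_, ?_⟩
  · rw [mkS_e, PtS.evA_pcst]
  · rw [mkS_e, PtS.evA_uz]
  · rw [mkS_e, PtS.evA_ux]
    exact hdisc l.succ _ (hub _)
  · have h := hdet I hrow hlt
    have e : (Matrix.of fun l k : Fin g => (mkS (hYcd l.succ) hz.smooth (hYper l.succ)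
        (circ_add_one R) (fun t => hP l.succ t)).reg (symb (pent F b k.succ 0))) =
        Matrix.of fun l k : Fin g => I k.succ l.succ - I 0 l.succ := by
      ext l k
      rw [Matrix.of_apply, Matrix.of_apply, mkS_reg (hYcd l.succ) hz]
    rw [e]
    exact h

end Pool.Agent.X321.GR
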