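import Pool.Agent.X321.GR.Det
set_option autoImplicit false

/-!
The margins, and the lower bounds.
-/

namespace Pool.Agent.X321.GR

variable {g : ℕ}

theorem card_near {b : Fin (g + 1) → ℤ} (hb : Function.Injective b) (T : ℕ) (i : Fin (g + 1)) :
    ((Finset.univ.erase i).filter fun j => |b i - b j| ≤ (T : ℤ)).card ≤ 2 * T := by
  have h1 : ((Finset.univ.erase i).filter fun j => |b i - b j| ≤ (T : ℤ)).image b ⊆
      (Finset.Icc (b i - T) (b i + T)).erase (b i) := by
    intro y hy
    obtain ⟨j, hj, rfl⟩ := Finset.mem_image.1 hy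
    obtain ⟨h1, h2⟩ := Finset.mem_filter.1 hj
    rw [abs_le] at h2
    refine Finset.mem_erase.2 ⟨hb.ne (Finset.ne_of_mem_erase h1), Finset.mem_Icc.2 ⟨?_, ?_⟩⟩
    · linarith [h2.2]
    · linarith [h2.1]
  have h2 := Finset.card_le_card h1
  rw [Finset.card_image_of_injective _ hb, Finset.card_erase_of_mem (Finset.mem_Icc.2
    ⟨by linarith [Int.natCast_nonneg T], by linarith [Int.natCast_nonneg T]⟩), Int.card_Icc] at h2
  omega

theorem margin {b : Fin (g + 1) → ℤ} (hb : Function.Injective b)
    {I : Fin (g + 1) → Fin (g + 1) → ℝ} {κ : ℝ} (hrow : ∀ i, ∑ j, I i j = κ)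
    (hoff : ∀ i j, i ≠ j → I i j < -(2 * Real.pi * Real.log (|(b i : ℝ) - b j| - 1 / 8)))
    {T : ℕ} {t : ℝ} (ht0 : 0 ≤ t) (ht : t ≤ 2 * Real.pi * Real.log (T + 7 / 8))
    (i : Fin (g + 1)) :
    (κ + (g + 1 - 4 * T) * t - 4 * T) + ∑ j ∈ Finset.univ.erase i, |I i j + t| ≤
      |I i i + t| := by
  have hpi := Real.pi_pos
  have hpi2 := Real.pi_lt_d2
  have hint : ∀ j, i ≠ j → (1 : ℝ) ≤ |(b i : ℝ) - b j| := by
    intro j hij
    have h1 : (1 : ℤ) ≤ |b i - b j| := Int.one_le_abs (sub_ne_zero.2 (hb.ne hij))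
    exact_mod_cast h1
  have hterm : ∀ j ∈ Finset.univ.erase i, I i j + |I i j + t| ≤
      -t + if |b i - b j| ≤ (T : ℤ) then 2 + 2 * t else 0 := by
    intro j hj
    have hij : i ≠ j := (Finset.ne_of_mem_erase hj).symm
    have h1 := hoff i j hij
    have hd := hint j hij
    split_ifs with h
    · have h2 : -(2 * Real.pi * Real.log (|(b i : ℝ) - b j| - 1 / 8)) ≤ 1 := by
        have h3 : Real.log (7 / 8) ≤ Real.log (|(b i : ℝ) - b j| - 1 / 8) :=
          Real.log_le_log (by norm_num) (by linarith)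
        have h4 : -(1 / 7) ≤ Real.log (7 / 8) := by
          have h5 := Real.one_sub_inv_le_log_of_pos (show (0 : ℝ) < 7 / 8 by norm_num)
          norm_num at h5 ⊢
          linarith
        nlinarith
      rcases le_total 0 (I i j + t) with h3 | h3
      · rw [abs_of_nonneg h3]
        linarith
      · rw [abs_of_nonpos h3]
        linarith
    · rw [not_le] at h
      have h2 : ((T : ℝ) + 1) ≤ |(b i : ℝ) - b j| := by
        have h3 : (T : ℤ) + 1 ≤ |b i - b j| := h
        exact_mod_cast h3
      have h3 : Real.log (T + 7 / 8) ≤ Real.log (|(b i : ℝ) - b j| - 1 / 8) := by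
        refine Real.log_le_log (by positivity) (by linarith)
      have h4 : I i j + t ≤ 0 := by
        have h5 := mul_le_mul_of_nonneg_left h3 (by positivity : 0 ≤ 2 * Real.pi)
        linarith
      rw [abs_of_nonpos h4]
      linarith
  have hsum := Finset.sum_le_sum hterm
  rw [Finset.sum_add_distrib, Finset.sum_add_distrib, Finset.sum_const,
    Finset.card_erase_of_mem (Finset.mem_univ i), Finset.card_univ, Fintype.card_fin,
    ← Finset.sum_filter, Finset.sum_const, nsmul_eq_mul, nsmul_eq_mul] at hsum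
  have hcard : ((((Finset.univ.erase i).filter fun j => |b i - b j| ≤ (T : ℤ)).card : ℕ) : ℝ) ≤
      2 * T := by
    exact_mod_cast card_near hb T i
  have hcard2 := mul_le_mul_of_nonneg_right hcard (by linarith : 0 ≤ 2 + 2 * t)
  have hg1 : ((g + 1 - 1 : ℕ) : ℝ) = g := by simp
  rw [hg1] at hsum
  have hr := hrow i
  rw [← Finset.add_sum_erase Finset.univ _ (Finset.mem_univ i)] at hr
  have habs := le_abs_self (I i i + t)
  nlinarith

/-- the lower bound for the determinant of the differences -/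
theorem det_lower {b : Fin (g + 1) → ℤ} (hb : Function.Injective b)
    {I : Fin (g + 1) → Fin (g + 1) → ℝ} {κ : ℝ} (hκ : 0 ≤ κ) (hrow : ∀ i, ∑ j, I i j = κ)
    (hoff : ∀ i j, i ≠ j → I i j < -(2 * Real.pi * Real.log (|(b i : ℝ) - b j| - 1 / 8)))
    {T : ℕ} {t a a' : ℝ} (ht0 : 0 < t) (ht : t ≤ 2 * Real.pi * Real.log (T + 7 / 8))
    (ha : 0 ≤ a) (haa : a < a') (ha' : a' ≤ (g + 1 - 4 * T) * t - 4 * T)
    (hS : (g + 1) * t ≤ a' + g * (a' - a)) :
    (κ + a) ^ g ≤ |(Matrix.of fun j k : Fin g => I k.succ j.succ - I 0 j.succ).det| := by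
  set D := (Matrix.of fun j k : Fin g => I k.succ j.succ - I 0 j.succ).det with hD
  have hg0 : (0 : ℝ) ≤ g := Nat.cast_nonneg g
  set S : ℝ := κ + (g + 1) * t with hSdef
  have hS0 : 0 < S := by
    have : 0 < (g + 1) * t := by positivity
    linarith
  have h1 := det_of_row_sum (fun i j => I i j + t) (S := S) (fun i => by
    rw [Finset.sum_add_distrib, hrow, Finset.sum_const, Finset.card_univ, Fintype.card_fin,
      nsmul_eq_mul, hSdef]
    push_cast
    ring)
  have h2 : (Matrix.of fun j k : Fin g => (fun i j => I i j + t) k.succ j.succ -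
      (fun i j => I i j + t) 0 j.succ).det = D := by
    rw [hD]
    congr 1
    ext j k
    simp only [Matrix.of_apply]
    ring
  rw [h2] at h1
  have h3 := prod_le_abs_det (Matrix.of fun i j => I i j + t) (fun _ => κ + a')
    (fun _ => by linarith) (fun i => by
      have h4 := margin hb hrow hoff ht0.le ht i
      simp only [Matrix.of_apply]
      linarith)
  rw [Finset.prod_const, Finset.card_univ, Fintype.card_fin, h1, abs_mul, abs_of_pos hS0] at h3
  -- Bernoulli
  have hka : 0 < κ + a' := by linarith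
  by_cases hka0 : κ + a = 0
  · by_cases hg : g = 0
    · subst hg
      rw [pow_zero]
      have h5 : D = 1 := by
        rw [hD]
        exact Matrix.det_isEmpty
      rw [h5, abs_one]
    · rw [hka0, zero_pow hg]
      exact abs_nonneg _
  · have hkap : 0 < κ + a := lt_of_le_of_ne (by linarith) (Ne.symm hka0)
    have h5 := one_add_mul_le_pow (a := (a' - a) / (κ + a)) (by
      have : 0 ≤ (a' - a) / (κ + a) := by
        have : 0 ≤ a' - a := by linarith
        positivity
      linarith) g
    have h6 : 1 + (a' - a) / (κ + a) = (κ + a') / (κ + a) := by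
      field_simp
      ring
    rw [h6, div_pow] at h5
    have hp : 0 < (κ + a) ^ g := pow_pos hkap g
    rw [le_div_iff₀ hp] at h5
    have h7 : S ≤ (1 + g * ((a' - a) / (κ + a))) * (κ + a') := by
      have h8 : (κ + a') * (a' - a) / (κ + a) ≥ (a' - a) := by
        rw [ge_iff_le, le_div_iff₀ hkap]
        have : 0 ≤ a' - a := by linarith
        nlinarith
      have h9 : (1 + g * ((a' - a) / (κ + a))) * (κ + a') =
          κ + a' + g * ((κ + a') * (a' - a) / (κ + a)) := by ring
      rw [h9, hSdef]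
      have h10 := mul_le_mul_of_nonneg_left h8 hg0
      linarith
    have h11 : S * (κ + a) ^ g ≤ S * |D| := by
      calc S * (κ + a) ^ g ≤ ((1 + g * ((a' - a) / (κ + a))) * (κ + a')) * (κ + a) ^ g :=
            mul_le_mul_of_nonneg_right h7 hp.le
        _ = ((1 + g * ((a' - a) / (κ + a))) * (κ + a) ^ g) * (κ + a') := by ring
        _ ≤ (κ + a') ^ g * (κ + a') := mul_le_mul_of_nonneg_right h5 hka.le
        _ = (κ + a') ^ (g + 1) := (pow_succ _ _).symm
        _ ≤ S * |D| := h3
    exact le_of_mul_le_mul_left h11 hS0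

end Pool.Agent.X321.GR
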