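import Mathlib
set_option autoImplicit false

/-!
Lower bounds for determinants.
-/

namespace Pool.Agent.X321.GR

open Matrix

section dom

variable {ι : Type*} [Fintype ι] [DecidableEq ι]

/-- a matrix which does not increase the maximum norm -/
def Contr (M : Matrix ι ι ℝ) : Prop :=
  ∀ x : ι → ℝ, (∀ i, |x i| ≤ 1) → ∀ i, |(M.mulVec x) i| ≤ 1

omit [DecidableEq ι] in
theorem Contr.mul {M N : Matrix ι ι ℝ} (hM : Contr M) (hN : Contr N) : Contr (M * N) := by
  intro x hx
  rw [← Matrix.mulVec_mulVec]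
  exact hM _ (hN x hx)

theorem contr_one : Contr (1 : Matrix ι ι ℝ) := by
  intro x hx i
  rw [Matrix.one_mulVec]
  exact hx i

theorem Contr.pow {M : Matrix ι ι ℝ} (hM : Contr M) (n : ℕ) : Contr (M ^ n) := by
  induction n with
  | zero => rw [pow_zero]; exact contr_one
  | succ n ih => rw [pow_succ]; exact ih.mul hM

theorem Contr.entry {M : Matrix ι ι ℝ} (hM : Contr M) (i j : ι) : |M i j| ≤ 1 := by
  have h := hM (Pi.single j 1) (fun k => by
    by_cases h : k = j
    · rw [h, Pi.single_eq_same, abs_one]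
    · rw [Pi.single_eq_of_ne h, abs_zero]
      exact zero_le_one) i
  rwa [Matrix.mulVec_single_one] at h

theorem Contr.abs_det {M : Matrix ι ι ℝ} (hM : Contr M) : |M.det| ≤ 1 := by
  by_contra hcon
  push Not at hcon
  obtain ⟨n, hn⟩ := pow_unbounded_of_one_lt ((Fintype.card ι).factorial : ℝ) hcon
  have h1 := Matrix.det_le (A := M ^ n) (abv := AbsoluteValue.abs) (x := 1)
    (fun i j => (hM.pow n).entry i j)
  rw [one_pow, nsmul_eq_mul, mul_one, Matrix.det_pow] at h1
  have h2 : |M.det ^ n| ≤ ((Fintype.card ι).factorial : ℝ) := h1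
  rw [abs_pow] at h2
  linarith

/-- **Lower bound for the determinant of a diagonally dominant matrix.** -/
theorem prod_le_abs_det (A : Matrix ι ι ℝ) (m : ι → ℝ) (hm : ∀ i, 0 < m i)
    (h : ∀ i, m i + ∑ j ∈ Finset.univ.erase i, |A i j| ≤ |A i i|) : ∏ i, m i ≤ |A.det| := by
  classical
  cases isEmpty_or_nonempty ι with
  | inl he => simp
  | inr hne =>
  set B : Matrix ι ι ℝ := Matrix.of fun i j => A i j / m i with hB
  have hAB : A.det = (∏ i, m i) * B.det := by
    rw [← Matrix.det_mul_column]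
    congr 1
    ext i j
    rw [Matrix.of_apply, hB, Matrix.of_apply, mul_div_cancel₀ _ (hm i).ne']
  have hBm : ∀ i, 1 + ∑ j ∈ Finset.univ.erase i, |B i j| ≤ |B i i| := by
    intro i
    have h1 := h i
    rw [hB]
    simp only [Matrix.of_apply, abs_div, abs_of_pos (hm i)]
    rw [← Finset.sum_div, ← div_self (hm i).ne', ← add_div]
    exact div_le_div_of_nonneg_right h1 (hm i).le
  -- the maximum principle
  have key : ∀ x : ι → ℝ, ∀ Y : ℝ, (∀ i, |(B.mulVec x) i| ≤ Y) → ∀ i, |x i| ≤ Y := by
    intro x Y hY i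
    obtain ⟨p, -, hp⟩ := Finset.exists_max_image Finset.univ (fun i => |x i|)
      ⟨Classical.arbitrary ι, Finset.mem_univ _⟩
    have h1 := hY p
    have h2 : (B.mulVec x) p = B p p * x p + ∑ j ∈ Finset.univ.erase p, B p j * x j := by
      rw [Matrix.mulVec, dotProduct, ← Finset.add_sum_erase Finset.univ _ (Finset.mem_univ p)]
    have h3 : |∑ j ∈ Finset.univ.erase p, B p j * x j| ≤
        (∑ j ∈ Finset.univ.erase p, |B p j|) * |x p| := by
      refine (Finset.abs_sum_le_sum_abs _ _).trans ?_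
      rw [Finset.sum_mul]
      refine Finset.sum_le_sum fun j _ => ?_
      rw [abs_mul]
      exact mul_le_mul_of_nonneg_left (hp j (Finset.mem_univ j)) (abs_nonneg _)
    have h4 : |B p p| * |x p| ≤ |(B.mulVec x) p| +
        (∑ j ∈ Finset.univ.erase p, |B p j|) * |x p| := by
      rw [← abs_mul]
      have h5 : B p p * x p = (B.mulVec x) p - ∑ j ∈ Finset.univ.erase p, B p j * x j := by
        rw [h2]
        ring
      rw [h5]
      exact (abs_sub _ _).trans (add_le_add le_rfl h3)
    have h6 := mul_le_mul_of_nonneg_right (hBm p) (abs_nonneg (x p))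
    have h7 : |x i| ≤ |x p| := hp i (Finset.mem_univ i)
    nlinarith
  have hdet : B.det ≠ 0 := by
    intro h0
    obtain ⟨x, hx0, hx⟩ := Matrix.exists_mulVec_eq_zero_iff.2 h0
    refine hx0 (funext fun i => ?_)
    have h1 := key x 0 (fun i => by rw [hx, Pi.zero_apply, abs_zero]) i
    exact abs_eq_zero.1 (le_antisymm h1 (abs_nonneg _))
  have hu : IsUnit B.det := isUnit_iff_ne_zero.2 hdet
  have hC : Contr B⁻¹ := by
    intro x hx i
    refine key _ 1 (fun i => ?_) i
    rw [Matrix.mulVec_mulVec, Matrix.mul_nonsing_inv _ hu, Matrix.one_mulVec]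
    exact hx i
  have h1 := hC.abs_det
  rw [Matrix.det_nonsing_inv, Ring.inverse_eq_inv', abs_inv] at h1
  have h2 : 1 ≤ |B.det| := by
    have h3 : 0 < |B.det| := abs_pos.2 hdet
    rwa [inv_le_one₀ h3] at h1
  have hprod : 0 ≤ ∏ i, m i := Finset.prod_nonneg fun i _ => (hm i).le
  rw [hAB, abs_mul, abs_of_nonneg hprod]
  nlinarith

end dom

/-- The determinant of a matrix with constant row sums. -/
theorem det_of_row_sum {g : ℕ} (B : Fin (g + 1) → Fin (g + 1) → ℝ) {S : ℝ}
    (hB : ∀ i, ∑ j, B i j = S) :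
    (Matrix.of B).det = S * (Matrix.of fun j k : Fin g => B k.succ j.succ - B 0 j.succ).det := by
  set c : Fin (g + 1) → ℝ := Fin.cons 0 fun _ => -1 with hc
  set A : Matrix (Fin (g + 1)) (Fin (g + 1)) ℝ :=
    Matrix.of fun i j => B i j + c i * B 0 j with hA
  have h1 : A.det = (Matrix.of B).det :=
    Matrix.det_eq_of_forall_row_eq_smul_add_const c 0 (by simp [hc]) fun i j => rfl
  set U : Matrix (Fin (g + 1)) (Fin (g + 1)) ℝ :=
    Matrix.of fun i j => if j = 0 then 1 else if i = j then 1 else 0 with hU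
  have hUdet : U.det = 1 := by
    rw [Matrix.det_of_isLowerTriangular, Finset.prod_eq_one]
    · intro i _
      simp [hU]
    · intro i j hij
      have hij' : i < j := hij
      rw [hU, Matrix.of_apply, if_neg (Fin.pos_iff_ne_zero.1 ((Fin.zero_le i).trans_lt hij')),
        if_neg hij'.ne]
  have hAU0 : ∀ i, (A * U) i 0 = ∑ j, A i j := by
    intro i
    rw [Matrix.mul_apply]
    refine Finset.sum_congr rfl fun j _ => ?_
    rw [hU, Matrix.of_apply, if_pos rfl, mul_one]
  have hAUs : ∀ i (j : Fin g), (A * U) i j.succ = A i j.succ := by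
    intro i j
    rw [Matrix.mul_apply, Finset.sum_eq_single j.succ]
    · rw [hU, Matrix.of_apply, if_neg (Fin.succ_ne_zero j), if_pos rfl, mul_one]
    · intro k _ hk
      rw [hU, Matrix.of_apply, if_neg (Fin.succ_ne_zero j), if_neg hk, mul_zero]
    · intro h
      exact absurd (Finset.mem_univ _) h
  have hrow0 : ∑ j, A 0 j = S := by
    rw [hA]
    simp only [Matrix.of_apply]
    rw [hc, Fin.cons_zero]
    simp only [zero_mul, add_zero]
    exact hB 0
  have hrows : ∀ k : Fin g, ∑ j, A k.succ j = 0 := by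
    intro k
    rw [hA]
    simp only [Matrix.of_apply]
    rw [hc, Fin.cons_succ, Finset.sum_add_distrib, ← Finset.mul_sum, hB, hB]
    ring
  have h2 : (A * U).det = S * (Matrix.of fun k j : Fin g => B k.succ j.succ - B 0 j.succ).det := by
    rw [Matrix.det_succ_column_zero, Fin.sum_univ_succ, hAU0, hrow0]
    rw [Finset.sum_eq_zero fun k _ => by rw [hAU0, hrows, mul_zero, zero_mul]]
    rw [Fin.val_zero, pow_zero, one_mul, add_zero]
    congr 2
    ext k j
    rw [Matrix.submatrix_apply, Fin.succAbove_zero, hAUs, hA, Matrix.of_apply, Matrix.of_apply, hc,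
      Fin.cons_succ]
    ring
  rw [Matrix.det_mul, hUdet, mul_one, h1] at h2
  rw [h2, ← Matrix.det_transpose]
  rfl

end Pool.Agent.X321.GR
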